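import Pool.Agent.H23.NVK.MTargets

/-!
# The smoothed sum with the sum of squares of logarithms, over an abstract semigroup
-/

set_option autoImplicit false

open Set Filter

namespace Pool.Agent.H49.NVK

open Pool.Agent.H23.NVK

section Id

variable {α : Type} {N : α → ℕ} {ρ δ : ℝ}

open Classical in
theorem nS_insert {p : α} {T : Finset α} (h : p ∉ T) : nS N (insert p T) = N p * nS N T :=
  Finset.prod_insert h

theorem le_nS (h : AxA N ρ δ) {p : α} {S : Finset α} (hp : p ∈ S) : N p ≤ nS N S := by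
  unfold nS
  exact Finset.single_le_prod' (f := N) (fun i _ => by have := h.two i; omega) hp

open Classical in
/-- the identity -/
theorem sum_ve (h : AxA N ρ δ) (q : Finset α) (k : ℕ) (y : ℝ) :
    ∑ S ∈ (SM N y).filter (fun S => Disjoint S q),
        (-2) ^ S.card / (nS N S : ℝ) * ve N S * Real.log (y / nS N S) ^ k =
      -∑ p ∈ PM N y, (if p ∈ q then 0 else 2 * (Real.log (N p) ^ 2 / N p)) *
        Bk N k (insert p q) (y / N p) := by
  have e1 : ∀ S ∈ (SM N y).filter (fun S => Disjoint S q),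
      (-2) ^ S.card / (nS N S : ℝ) * ve N S * Real.log (y / nS N S) ^ k =
      ∑ p ∈ PM N y, if p ∈ S then (-2) ^ S.card / (nS N S : ℝ) * Real.log (N p) ^ 2 *
        Real.log (y / nS N S) ^ k else 0 := by
    intro S hS
    rw [Finset.mem_filter, h.mem_SM] at hS
    unfold ve
    rw [Finset.mul_sum, Finset.sum_mul, ← Finset.sum_filter]
    refine Finset.sum_congr ?_ fun p _ => rfl
    ext p
    rw [Finset.mem_filter, h.mem_PM]
    constructor
    · intro hp
      refine ⟨le_trans ?_ hS.1, hp⟩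
      exact_mod_cast le_nS h hp
    · exact fun hp => hp.2
  rw [Finset.sum_congr rfl e1, Finset.sum_comm, ← Finset.sum_neg_distrib]
  refine Finset.sum_congr rfl fun p hp => ?_
  by_cases hpq : p ∈ q
  · rw [if_pos hpq, zero_mul, neg_zero]
    refine Finset.sum_eq_zero fun S hS => ?_
    rw [Finset.mem_filter] at hS
    rw [if_neg fun h1 => Finset.disjoint_left.1 hS.2 h1 hpq]
  · rw [if_neg hpq, ← Finset.sum_filter, Finset.filter_filter]
    unfold Bk
    rw [Finset.mul_sum, ← Finset.sum_neg_distrib]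
    have hN1 : 2 ≤ N p := h.two p
    have hN2 : (2 : ℝ) ≤ N p := by exact_mod_cast hN1
    have hN : (0 : ℝ) < N p := by linarith
    refine Finset.sum_bij' (fun S _ => S.erase p) (fun T _ => insert p T) ?_ ?_ ?_ ?_ ?_
    · intro S hS
      rw [Finset.mem_filter, h.mem_SM] at hS
      obtain ⟨h1, h2, h3⟩ := hS
      have h4 : nS N S = N p * nS N (S.erase p) := by
        rw [← nS_insert (Finset.notMem_erase p S), Finset.insert_erase h3]
      rw [Finset.mem_filter, h.mem_SM, le_div_iff₀ hN]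
      refine ⟨?_, ?_⟩
      · rw [h4] at h1
        push_cast at h1
        linarith
      · rw [Finset.disjoint_insert_right]
        exact ⟨Finset.notMem_erase p S, Finset.disjoint_of_subset_left (Finset.erase_subset p S) h2⟩
    · intro T hT
      rw [Finset.mem_filter, h.mem_SM, le_div_iff₀ hN, Finset.disjoint_insert_right] at hT
      obtain ⟨h1, h2, h3⟩ := hT
      rw [Finset.mem_filter, h.mem_SM, nS_insert h2]
      refine ⟨?_, ?_, Finset.mem_insert_self p T⟩
      · push_cast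
        linarith
      · rw [Finset.disjoint_insert_left]
        exact ⟨hpq, h3⟩
    · intro S hS
      rw [Finset.mem_filter] at hS
      exact Finset.insert_erase hS.2.2
    · intro T hT
      rw [Finset.mem_filter, Finset.disjoint_insert_right] at hT
      exact Finset.erase_insert hT.2.1
    · intro S hS
      rw [Finset.mem_filter, h.mem_SM] at hS
      obtain ⟨h1, h2, h3⟩ := hS
      have h4 : nS N S = N p * nS N (S.erase p) := by
        rw [← nS_insert (Finset.notMem_erase p S), Finset.insert_erase h3]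
      have h5 : S.card = (S.erase p).card + 1 := by
        rw [Finset.card_erase_add_one h3]
      have h6 : (nS N (S.erase p) : ℝ) ≠ 0 := (h.nS_pos _).ne'
      rw [h5, h4, pow_succ]
      push_cast
      rw [div_div]
      field_simp

end Id

/-! ### Estimates -/

theorem log_sq_le (p : ℕ) : Real.log p ^ 2 ≤ 16 * Real.sqrt p := by
  rcases Nat.eq_zero_or_pos p with rfl | hp
  · simp
  have hp1 : (1 : ℝ) ≤ p := by exact_mod_cast hp
  have h1 : 0 ≤ Real.log p := Real.log_nonneg hp1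
  have h2 : Real.log p ≤ (p : ℝ) ^ ((4 : ℝ)⁻¹) / (4 : ℝ)⁻¹ :=
    Real.log_le_rpow_div (by linarith) (by norm_num)
  have h3 : ((p : ℝ) ^ ((4 : ℝ)⁻¹)) ^ 2 = Real.sqrt p := by
    rw [← Real.rpow_natCast, ← Real.rpow_mul (by linarith), Real.sqrt_eq_rpow]
    norm_num
  have h4 : Real.log p ≤ 4 * (p : ℝ) ^ ((4 : ℝ)⁻¹) := by
    rw [div_inv_eq_mul, mul_comm] at h2
    exact h2
  calc Real.log p ^ 2 ≤ (4 * (p : ℝ) ^ ((4 : ℝ)⁻¹)) ^ 2 := pow_le_pow_left₀ h1 h4 2
    _ = 16 * ((p : ℝ) ^ ((4 : ℝ)⁻¹)) ^ 2 := by ring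
    _ = _ := by rw [h3]

section Est

variable {α : Type} {N : α → ℕ} {ρ δ : ℝ}

theorem Ef_one_le (q : Finset α) : 1 ≤ Ef N q := by
  unfold Ef
  have h : ∏ p ∈ q, (1 : ℝ) ≤ ∏ p ∈ q, (1 + 30 / Real.sqrt (N p)) :=
    Finset.prod_le_prod (fun _ _ => zero_le_one) fun p _ => by
      have : 0 ≤ 30 / Real.sqrt (N p) := by positivity
      linarith
  rwa [Finset.prod_const_one] at h

theorem sum_le_Ef (s : Finset α) : ∑ p ∈ s, 30 / Real.sqrt (N p) ≤ Ef N s := by
  classical
  have key : ∀ s : Finset α, 1 + ∑ p ∈ s, 30 / Real.sqrt (N p) ≤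
      ∏ p ∈ s, (1 + 30 / Real.sqrt (N p)) := by
    intro s
    induction s using Finset.induction_on with
    | empty => simp
    | insert a s ha ih =>
      rw [Finset.sum_insert ha, Finset.prod_insert ha]
      have h1 : 0 ≤ 30 / Real.sqrt (N a) := by positivity
      have h2 : 0 ≤ ∑ p ∈ s, 30 / Real.sqrt (N p) := Finset.sum_nonneg fun p _ => by positivity
      nlinarith
  have := key s
  unfold Ef
  linarith

open Classical in
theorem Ef_insert (h : AxA N ρ δ) {q : Finset α} {p : α} (hpq : p ∉ q) :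
    Ef N (insert p q) ≤ 31 * Ef N q := by
  have h0 := Ef_one_le (N := N) q
  have h3 : Ef N (insert p q) = (1 + 30 / Real.sqrt (N p)) * Ef N q := by
    unfold Ef
    exact Finset.prod_insert hpq
  rw [h3]
  refine mul_le_mul_of_nonneg_right ?_ (by linarith)
  have h1 : (1 : ℝ) ≤ Real.sqrt (N p) := by
    rw [Real.one_le_sqrt]
    have := h.two p
    exact_mod_cast (by omega : 1 ≤ N p)
  have h2 : 30 / Real.sqrt (N p) ≤ 30 := by
    rw [div_le_iff₀ (by linarith)]
    linarith
  linarith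

open Classical in
/-- the sum over the primes of `q` -/
theorem sum_dvd (h : AxA N ρ δ) (q s : Finset α) :
    ∑ p ∈ s.filter (fun p => p ∈ q), Real.log (N p) ^ 2 / N p ≤ Ef N q := by
  have h1 : s.filter (fun p => p ∈ q) ⊆ q := by
    intro p hp
    rw [Finset.mem_filter] at hp
    exact hp.2
  refine (Finset.sum_le_sum_of_subset_of_nonneg h1 fun p _ _ => by positivity).trans ?_
  refine le_trans (Finset.sum_le_sum fun p hp => ?_) (sum_le_Ef q)
  have hp2 := h.two p
  have hp0 : (0 : ℝ) < N p := by exact_mod_cast (by omega : 0 < N p)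
  have hs : 0 < Real.sqrt (N p) := Real.sqrt_pos.2 hp0
  rw [div_le_div_iff₀ hp0 hs]
  have h2 := log_sq_le (N p)
  have h3 : Real.sqrt (N p) * Real.sqrt (N p) = N p := Real.mul_self_sqrt hp0.le
  nlinarith

/-- the sum of `log² / N²` -/
theorem sum_sq (h : AxA N ρ δ)
    (hs : Summable (fun p : α => Real.log (N p) ^ 2 * (N p : ℝ) ^ (-2 : ℝ))) (s : Finset α) :
    ∑ p ∈ s, Real.log (N p) ^ 2 / N p * (1 / N p) ≤
      ∑' p : α, Real.log (N p) ^ 2 * (N p : ℝ) ^ (-2 : ℝ) := by
  have h1 : ∀ p ∈ s, Real.log (N p) ^ 2 / N p * (1 / N p) =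
      Real.log (N p) ^ 2 * (N p : ℝ) ^ (-2 : ℝ) := by
    intro p _
    have hp2 := h.two p
    have hp0 : (0 : ℝ) < N p := by exact_mod_cast (by omega : 0 < N p)
    rw [Real.rpow_neg hp0.le]
    norm_num
    ring
  rw [Finset.sum_congr rfl h1]
  exact hs.sum_le_tsum _ fun n _ => by positivity

end Est

open Classical in
theorem pf_VS (hBK : T_BK) (hHQ : T_HQ) (hMER : T_MER) (hSUM : T_SUM) : T_VS := by
  intro α N ρ δ h k hk
  obtain ⟨CB, hCB, hB⟩ := hBK α N ρ δ h k hk
  obtain ⟨CM, hCM, hM⟩ := hMER α N ρ δ h (k - 2)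
  obtain ⟨C0, hC0, hM0⟩ := hMER α N ρ δ h 0
  obtain ⟨CH, hCH, hH⟩ := hHQ α N ρ δ h
  have hsm := (hSUM α N ρ δ h).2.1 2 2 (by norm_num)
  have hρ := h.rho
  set S := ∑' p : α, Real.log (N p) ^ 2 * (N p : ℝ) ^ (-2 : ℝ) with hS
  have hS0 : 0 ≤ S := tsum_nonneg fun n => by positivity
  have hk1 : (5 : ℝ) ≤ k := by exact_mod_cast hk
  set κ₀ : ℝ := k * (k - 1) with hκ₀
  have hκ₀0 : 0 < κ₀ := mul_pos (by linarith) (by linarith)
  set κ : ℝ := k * (k - 1) / ρ ^ 2 with hκ
  have hκ0 : 0 ≤ κ := by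
    rw [hκ, ← hκ₀]
    positivity
  refine ⟨62 * CB * (C0 + 1) + 2 * κ * (62 * CH * S) + 2 * κ * CH +
    2 * κ * CH * CM + 1, by positivity, fun q y hq hy => ?_⟩
  obtain ⟨hHpos, hHle, hHmul, -⟩ := hH q hq
  have hU : 0 ≤ Real.log y := Real.log_nonneg hy
  set U := Real.log y with hUd
  set X := 1 + U with hX
  have hX1 : 1 ≤ X := by linarith
  have hE1 := Ef_one_le (N := N) q
  set E := Ef N q with hEd
  set s := PM N y with hs
  have hsp : ∀ p ∈ s, (2 : ℝ) ≤ N p ∧ (N p : ℝ) ≤ y := by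
    intro p hp
    rw [hs, h.mem_PM] at hp
    exact ⟨by exact_mod_cast h.two p, hp⟩
  have hAd : ∀ p, Ad N (insert p q) := fun p x hx => Finset.mem_insert_of_mem (hq x hx)
  have hlogp : ∀ p ∈ s, 0 ≤ Real.log (y / N p) ∧ Real.log (y / N p) ≤ U ∧ 1 ≤ y / N p := by
    intro p hp
    obtain ⟨h3, h4⟩ := hsp p hp
    have hp0 : (0 : ℝ) < N p := by linarith
    have h5 : 1 ≤ y / N p := by
      rw [le_div_iff₀ hp0]
      linarith
    refine ⟨Real.log_nonneg h5, ?_, h5⟩
    refine Real.log_le_log (by linarith) ?_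
    rw [div_le_iff₀ hp0]
    nlinarith
  -- the sums
  have hk2 : ((k - 2 : ℕ) : ℝ) = k - 2 := by
    rw [Nat.cast_sub (by omega)]
    norm_num
  have hMk := hM y hy
  have hM00 := hM0 y hy
  have e3 : (((k - 2 : ℕ) : ℝ) + 1) * (((k - 2 : ℕ) : ℝ) + 2) = κ₀ := by
    rw [hk2, hκ₀]
    ring
  rw [e3, Nat.sub_add_cancel (by omega : 2 ≤ k), ← hs, ← hUd,
    show k - 2 + 1 = k - 1 by omega] at hMk
  simp only [pow_zero, mul_one, Nat.cast_zero, zero_add, one_mul, pow_one] at hM00
  rw [← hs, ← hUd] at hM00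
  have hW : ∑ p ∈ s, Real.log (N p) ^ 2 / N p ≤ (C0 + 1) * X ^ 2 := by
    rw [abs_le] at hM00
    have h3 := hM00.2
    have h4 : U ^ 2 / 2 ≤ X ^ 2 := by nlinarith
    have h5 : C0 * (1 + U) ≤ C0 * X ^ 2 := by
      refine mul_le_mul_of_nonneg_left ?_ hC0.le
      nlinarith
    linarith
  rw [sum_ve h q k y, ← hs]
  -- the errors
  let D : α → ℝ := fun p => if p ∈ q then 0 else 2 * (Real.log (N p) ^ 2 / N p)
  have hD0 : ∀ p, 0 ≤ D p ∧ D p ≤ 2 * (Real.log (N p) ^ 2 / N p) := by
    intro p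
    simp only [D]
    split_ifs
    · exact ⟨le_rfl, by positivity⟩
    · exact ⟨by positivity, le_rfl⟩
  have hErr1 : |∑ p ∈ s, D p * (Bk N k (insert p q) (y / N p) -
      Hq N (insert p q) * κ * Real.log (y / N p) ^ (k - 2))| ≤
      62 * CB * (C0 + 1) * (E * X ^ (k - 1)) := by
    refine (Finset.abs_sum_le_sum_abs _ _).trans ?_
    have h3 : ∀ p ∈ s, |D p * (Bk N k (insert p q) (y / N p) -
        Hq N (insert p q) * κ * Real.log (y / N p) ^ (k - 2))| ≤
        Real.log (N p) ^ 2 / N p * (62 * CB * (E * X ^ (k - 3))) := by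
      intro p hp
      obtain ⟨h4, h5⟩ := hsp p hp
      obtain ⟨h6, h7, h8⟩ := hlogp p hp
      by_cases hpq : p ∈ q
      · have : D p = 0 := if_pos hpq
        rw [this, zero_mul, abs_zero]
        positivity
      · have h9 := hB (insert p q) (y / N p) (hAd p) h8
        have h10 := Ef_insert h hpq
        rw [abs_mul, abs_of_nonneg (hD0 p).1]
        have h11 : CB * Ef N (insert p q) * (1 + Real.log (y / N p)) ^ (k - 3) ≤
            CB * (31 * E) * X ^ (k - 3) := by
          refine mul_le_mul (mul_le_mul_of_nonneg_left h10 hCB.le)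
            (pow_le_pow_left₀ (by linarith) (by linarith) _) (by positivity) (by positivity)
        calc D p * |Bk N k (insert p q) (y / N p) -
              Hq N (insert p q) * κ * Real.log (y / N p) ^ (k - 2)| ≤
            (2 * (Real.log (N p) ^ 2 / N p)) * (CB * (31 * E) * X ^ (k - 3)) :=
              mul_le_mul (hD0 p).2 (h9.trans h11) (abs_nonneg _) (by positivity)
          _ = _ := by ring
    refine (Finset.sum_le_sum h3).trans ?_
    rw [← Finset.sum_mul]
    have h4 : X ^ (k - 1) = X ^ 2 * X ^ (k - 3) := by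
      rw [← pow_add]
      congr 1
      omega
    calc (∑ p ∈ s, Real.log (N p) ^ 2 / N p) * (62 * CB * (E * X ^ (k - 3))) ≤
        ((C0 + 1) * X ^ 2) * (62 * CB * (E * X ^ (k - 3))) :=
          mul_le_mul_of_nonneg_right hW (by positivity)
      _ = _ := by rw [h4]; ring
  have hErr2 : |∑ p ∈ s, D p * ((Hq N (insert p q) - Hq N q) * κ *
      Real.log (y / N p) ^ (k - 2))| ≤ 2 * κ * (62 * CH * S) * (E * X ^ (k - 1)) := by
    refine (Finset.abs_sum_le_sum_abs _ _).trans ?_
    have h3 : ∀ p ∈ s, |D p * ((Hq N (insert p q) - Hq N q) * κ *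
        Real.log (y / N p) ^ (k - 2))| ≤
        Real.log (N p) ^ 2 / N p * (1 / N p) * (2 * κ * (62 * CH) * (E * X ^ (k - 1))) := by
      intro p hp
      obtain ⟨h4, h5⟩ := hsp p hp
      obtain ⟨h6, h7, h8⟩ := hlogp p hp
      have hp0 : (0 : ℝ) < N p := by linarith
      by_cases hpq : p ∈ q
      · have : D p = 0 := if_pos hpq
        rw [this, zero_mul, abs_zero]
        positivity
      · obtain ⟨g1, g2, -⟩ := hH (insert p q) (hAd p)
        have h9 := hHmul p (insert p q) hpq (fun x => Finset.mem_insert)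
        have h10 := Ef_insert h hpq
        have h11 : Hq N (insert p q) - Hq N q = Hq N (insert p q) * (2 / N p) := by
          rw [← h9]
          ring
        have h12 : Hq N (insert p q) ≤ CH * (31 * E) :=
          g2.trans (mul_le_mul_of_nonneg_left h10 hCH.le)
        rw [h11, abs_of_nonneg (mul_nonneg (hD0 p).1 (by positivity))]
        have h13 : Real.log (y / N p) ^ (k - 2) ≤ X ^ (k - 1) := by
          calc Real.log (y / N p) ^ (k - 2) ≤ X ^ (k - 2) :=
                pow_le_pow_left₀ h6 (by linarith) _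
            _ ≤ X ^ (k - 1) := pow_le_pow_right₀ hX1 (by omega)
        calc D p * (Hq N (insert p q) * (2 / N p) * κ * Real.log (y / N p) ^ (k - 2)) ≤
            (2 * (Real.log (N p) ^ 2 / N p)) * (CH * (31 * E) * (2 / N p) * κ * X ^ (k - 1)) := by
              refine mul_le_mul (hD0 p).2 ?_ (by positivity) (by positivity)
              refine mul_le_mul ?_ h13 (by positivity) (by positivity)
              refine mul_le_mul_of_nonneg_right ?_ hκ0
              exact mul_le_mul_of_nonneg_right h12 (by positivity)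
          _ = _ := by ring
    refine (Finset.sum_le_sum h3).trans ?_
    rw [← Finset.sum_mul]
    calc (∑ p ∈ s, Real.log (N p) ^ 2 / N p * (1 / N p)) *
          (2 * κ * (62 * CH) * (E * X ^ (k - 1))) ≤
        S * (2 * κ * (62 * CH) * (E * X ^ (k - 1))) :=
          mul_le_mul_of_nonneg_right (sum_sq h hsm s) (by positivity)
      _ = _ := by ring
  have hErr3 : |∑ p ∈ s, (2 * (Real.log (N p) ^ 2 / N p) - D p) *
      (Hq N q * κ * Real.log (y / N p) ^ (k - 2))| ≤ 2 * κ * CH * (E ^ 2 * X ^ (k - 1)) := by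
    have h3 : ∀ p ∈ s, (2 * (Real.log (N p) ^ 2 / N p) - D p) *
        (Hq N q * κ * Real.log (y / N p) ^ (k - 2)) ≤
        (if p ∈ q then Real.log (N p) ^ 2 / N p else 0) * (2 * (CH * E) * κ * X ^ (k - 1)) := by
      intro p hp
      obtain ⟨h6, h7, h8⟩ := hlogp p hp
      by_cases hpq : p ∈ q
      · have : D p = 0 := if_pos hpq
        rw [this, if_pos hpq, sub_zero]
        have h13 : Real.log (y / N p) ^ (k - 2) ≤ X ^ (k - 1) := by
          calc Real.log (y / N p) ^ (k - 2) ≤ X ^ (k - 2) :=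
                pow_le_pow_left₀ h6 (by linarith) _
            _ ≤ X ^ (k - 1) := pow_le_pow_right₀ hX1 (by omega)
        calc 2 * (Real.log (N p) ^ 2 / N p) * (Hq N q * κ * Real.log (y / N p) ^ (k - 2)) ≤
            2 * (Real.log (N p) ^ 2 / N p) * (CH * E * κ * X ^ (k - 1)) := by
              refine mul_le_mul_of_nonneg_left ?_ (by positivity)
              refine mul_le_mul ?_ h13 (by positivity) (by positivity)
              exact mul_le_mul_of_nonneg_right hHle hκ0
          _ = _ := by ring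
      · have : D p = 2 * (Real.log (N p) ^ 2 / N p) := if_neg hpq
        rw [this, if_neg hpq, sub_self, zero_mul, zero_mul]
    have h3' : ∀ p ∈ s, 0 ≤ (2 * (Real.log (N p) ^ 2 / N p) - D p) *
        (Hq N q * κ * Real.log (y / N p) ^ (k - 2)) := fun p hp =>
      mul_nonneg (sub_nonneg.2 (hD0 p).2) (mul_nonneg (mul_nonneg hHpos.le hκ0)
        (pow_nonneg (hlogp p hp).1 _))
    rw [abs_of_nonneg (Finset.sum_nonneg h3')]
    refine (Finset.sum_le_sum h3).trans ?_
    rw [← Finset.sum_mul]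
    have h4 : ∑ p ∈ s, (if p ∈ q then Real.log (N p) ^ 2 / N p else 0) ≤ E := by
      rw [← Finset.sum_filter]
      exact sum_dvd h q s
    calc (∑ p ∈ s, if p ∈ q then Real.log (N p) ^ 2 / N p else 0) *
          (2 * (CH * E) * κ * X ^ (k - 1)) ≤
        E * (2 * (CH * E) * κ * X ^ (k - 1)) := mul_le_mul_of_nonneg_right h4 (by positivity)
      _ = _ := by ring
  have hErr4 : |2 * (Hq N q * κ) * (∑ p ∈ s, Real.log (N p) ^ 2 / N p *
      Real.log (y / N p) ^ (k - 2) - U ^ k / κ₀)| ≤ 2 * κ * CH * CM * (E * X ^ (k - 1)) := by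
    rw [abs_mul, abs_of_nonneg (by positivity)]
    calc 2 * (Hq N q * κ) * |∑ p ∈ s, Real.log (N p) ^ 2 / N p *
        Real.log (y / N p) ^ (k - 2) - U ^ k / κ₀| ≤ 2 * (CH * E * κ) * (CM * X ^ (k - 1)) := by
          refine mul_le_mul ?_ hMk (abs_nonneg _) (by positivity)
          exact mul_le_mul_of_nonneg_left (mul_le_mul_of_nonneg_right hHle hκ0) (by norm_num)
      _ = _ := by ring
  have hid : -∑ p ∈ s, (if p ∈ q then 0 else 2 * (Real.log (N p) ^ 2 / N p)) *
      Bk N k (insert p q) (y / N p) + 2 / ρ ^ 2 * Hq N q * U ^ k =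
      -(∑ p ∈ s, D p * (Bk N k (insert p q) (y / N p) -
        Hq N (insert p q) * κ * Real.log (y / N p) ^ (k - 2))) -
      ∑ p ∈ s, D p * ((Hq N (insert p q) - Hq N q) * κ * Real.log (y / N p) ^ (k - 2)) +
      ∑ p ∈ s, (2 * (Real.log (N p) ^ 2 / N p) - D p) *
        (Hq N q * κ * Real.log (y / N p) ^ (k - 2)) -
      2 * (Hq N q * κ) * (∑ p ∈ s, Real.log (N p) ^ 2 / N p * Real.log (y / N p) ^ (k - 2) -
        U ^ k / κ₀) := by
    have e4 : 2 * (Hq N q * κ) * (∑ p ∈ s, Real.log (N p) ^ 2 / N p *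
        Real.log (y / N p) ^ (k - 2) - U ^ k / κ₀) =
        ∑ p ∈ s, 2 * (Hq N q * κ) * (Real.log (N p) ^ 2 / N p *
          Real.log (y / N p) ^ (k - 2)) - 2 / ρ ^ 2 * Hq N q * U ^ k := by
      rw [mul_sub, Finset.mul_sum]
      have e6 : 2 * (Hq N q * κ) * (U ^ k / κ₀) = 2 / ρ ^ 2 * Hq N q * U ^ k := by
        rw [hκ, ← hκ₀]
        field_simp
      rw [e6]
    rw [e4]
    have e5 : -∑ p ∈ s, (if p ∈ q then 0 else 2 * (Real.log (N p) ^ 2 / N p)) *
        Bk N k (insert p q) (y / N p) =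
        -(∑ p ∈ s, D p * (Bk N k (insert p q) (y / N p) -
          Hq N (insert p q) * κ * Real.log (y / N p) ^ (k - 2))) -
        ∑ p ∈ s, D p * ((Hq N (insert p q) - Hq N q) * κ * Real.log (y / N p) ^ (k - 2)) +
        ∑ p ∈ s, (2 * (Real.log (N p) ^ 2 / N p) - D p) *
          (Hq N q * κ * Real.log (y / N p) ^ (k - 2)) -
        ∑ p ∈ s, 2 * (Hq N q * κ) * (Real.log (N p) ^ 2 / N p *
          Real.log (y / N p) ^ (k - 2)) := by
      rw [← Finset.sum_neg_distrib, ← Finset.sum_neg_distrib, ← Finset.sum_sub_distrib,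
        ← Finset.sum_add_distrib, ← Finset.sum_sub_distrib]
      refine Finset.sum_congr rfl fun p _ => ?_
      simp only [D]
      ring
    rw [e5]
    ring
  have hEE : E * X ^ (k - 1) ≤ E ^ 2 * X ^ (k - 1) := by
    refine mul_le_mul_of_nonneg_right ?_ (by positivity)
    nlinarith
  rw [hid]
  have hfin : ∀ a b c d : ℝ, |-a - b + c - d| ≤ |a| + |b| + |c| + |d| := by
    intro a b c d
    have h1 := abs_sub (-a - b + c) d
    have h2 := abs_add_le (-a - b) c
    have h3 := abs_sub (-a) b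
    rw [abs_neg] at h3
    linarith
  refine (hfin _ _ _ _).trans ?_
  have m1 : 62 * CB * (C0 + 1) * (E * X ^ (k - 1)) ≤
      62 * CB * (C0 + 1) * (E ^ 2 * X ^ (k - 1)) := mul_le_mul_of_nonneg_left hEE (by positivity)
  have m2 : 2 * κ * (62 * CH * S) * (E * X ^ (k - 1)) ≤
      2 * κ * (62 * CH * S) * (E ^ 2 * X ^ (k - 1)) :=
    mul_le_mul_of_nonneg_left hEE (by positivity)
  have m4 : 2 * κ * CH * CM * (E * X ^ (k - 1)) ≤ 2 * κ * CH * CM * (E ^ 2 * X ^ (k - 1)) :=
    mul_le_mul_of_nonneg_left hEE (by positivity)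
  have m5 : 0 ≤ E ^ 2 * X ^ (k - 1) := by positivity
  have e6 : (62 * CB * (C0 + 1) + 2 * κ * (62 * CH * S) + 2 * κ * CH +
      2 * κ * CH * CM + 1) * E ^ 2 * X ^ (k - 1) =
      62 * CB * (C0 + 1) * (E ^ 2 * X ^ (k - 1)) +
      2 * κ * (62 * CH * S) * (E ^ 2 * X ^ (k - 1)) +
      2 * κ * CH * (E ^ 2 * X ^ (k - 1)) + 2 * κ * CH * CM * (E ^ 2 * X ^ (k - 1)) +
      E ^ 2 * X ^ (k - 1) := by ring
  rw [e6]
  linarith

end Pool.Agent.H49.NVK
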