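import Pool.Agent.H89.NV.TU2
import Pool.Agent.H98.CM4.EMB

/-!
# The vectors of the lattices
-/

set_option autoImplicit false

open MeasureTheory Set Filter NumberField NumberField.InfinitePlace
open Pool.Agent.H65.CM4 Pool.Agent.H61.NVK Pool.Agent.H89.NV
open scoped Real

namespace Pool.Agent.H49.NVK

section

variable {k : Type} [Field k] [NumberField k]

theorem q4_eq {x : 𝓞 k} {I : Ideal (𝓞 k)} (h : x ∈ ni k 4 * I) : 4 * q4 x = x ∧ q4 x ∈ I := by
  unfold ni at h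
  rw [Ideal.mem_span_singleton_mul] at h
  obtain ⟨z, hz, hx⟩ := h
  have h1 : ∃ c : 𝓞 k, 4 * c = x := ⟨z, by rw [← hx]; push_cast; rfl⟩
  have h2 : 4 * q4 x = x := by
    unfold q4
    rw [dif_pos h1]
    exact h1.choose_spec
  refine ⟨h2, ?_⟩
  have h3 : q4 x = z := by
    have h4 : (4 : 𝓞 k) ≠ 0 := by norm_num
    refine mul_left_cancel₀ h4 ?_
    rw [h2, ← hx]
    push_cast
    rfl
  rw [h3]
  exact hz

theorem nm_mul (I J : Ideal (𝓞 k)) : nm (I * J) = nm I * nm J := by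
  unfold nm
  rw [map_mul]
  push_cast
  rfl

theorem mem_Lb {a B : Ideal (𝓞 k)} {u : V2 k} : u ∈ Lb a B ↔ u.1 ∈ a * B ∧ u.2 ∈ a := by
  unfold Lb
  exact Submodule.mem_prod

variable [IsTotallyReal k]

theorem mem_hom {D : 𝓞 k} {K : Type} [Field K] [Algebra k K] (h : CK D K) (f a A : Ideal (𝓞 k))
    (b : 𝓞 k) (z : K) :
    z ∈ hom a 1 (Lam h f A b) ↔ ∃ u ∈ Lb a (A * f), z = zz h b u := by
  have e1 : hom a 1 (Lam h f A b) =
      Submodule.map (Algebra.linearMap (𝓞 k) K) (a * (A * f)) ⊔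
        a • Submodule.span (𝓞 k) {(algebraMap (𝓞 k) K b + h.s) / 2} := by
    unfold hom Lam
    rw [LinearMap.mulLeft_one, Submodule.map_id, Submodule.smul_sup, ← Submodule.map_smul'',
      Ideal.smul_eq_mul]
  rw [e1, Submodule.mem_sup]
  constructor
  · rintro ⟨s, hs, t, ht, rfl⟩
    rw [Submodule.mem_map] at hs
    obtain ⟨x, hx, rfl⟩ := hs
    rw [Submodule.mem_smul_span_singleton] at ht
    obtain ⟨y, hy, rfl⟩ := ht
    refine ⟨(x, y), mem_Lb.2 ⟨hx, hy⟩, ?_⟩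
    unfold zz
    rw [Algebra.linearMap_apply, Algebra.smul_def]
  · rintro ⟨u, hu, rfl⟩
    rw [mem_Lb] at hu
    refine ⟨algebraMap (𝓞 k) K u.1, Submodule.mem_map_of_mem (f := Algebra.linearMap (𝓞 k) K) hu.1,
      algebraMap (𝓞 k) K u.2 * ((algebraMap (𝓞 k) K b + h.s) / 2), ?_, rfl⟩
    rw [Submodule.mem_smul_span_singleton]
    exact ⟨u.2, hu.2, by rw [Algebra.smul_def]⟩

end

variable (k : Type) [Field k] [NumberField k] [IsTotallyReal k]

theorem pf_LMB (hCKB : T_CKB k) : T_LMB k := by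
  intro D hD K _ _ h f a A b hf hFm
  refine ⟨mem_hom h f a A b, ?_, ?_⟩
  · unfold Lam
    exact ((IsNoetherian.noetherian (A * f)).map _).sup (Submodule.fg_span_singleton _)
  · intro u hu hu0 ha
    obtain ⟨-, hpos, hnk0, -, -, -, -, hz⟩ := hCKB D hD K h
    obtain ⟨hz1, hz2, hz3, hz4, -, hz6, -⟩ := hz f A b hf hFm
    obtain ⟨-, -, -, -, -, -, -, -, -, -, hNI, -⟩ := Pool.Agent.H98.CM4.pf_EMB k
    have hzz0 : zz h b (0 : V2 k) = 0 := by
      unfold zz
      simp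
    have hne : zz h b u ≠ 0 := by
      intro h1
      exact hu0 (hz3 u 0 (by rw [h1, hzz0]))
    have hp := hpos _ hne
    obtain ⟨hq1, hq2⟩ := q4_eq hFm.dis
    set c := q4 (b ^ 2 + D) with hc
    set n : 𝓞 k := u.1 ^ 2 + b * u.1 * u.2 + c * u.2 ^ 2 with hn
    have hn1 : nk h (zz h b u) = (n : k) := hz4 u
    have hn0 : n ≠ 0 := by
      intro h1
      have h2 := hp (Classical.arbitrary _)
      rw [hn1, h1] at h2
      simp at h2
    rw [mem_Lb] at hu
    obtain ⟨hu1, hu2⟩ := hu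
    have hmem : n ∈ a ^ 2 * (A * f ^ 2) := by
      rw [hn]
      refine Ideal.add_mem _ (Ideal.add_mem _ ?_ ?_) ?_
      · have h1 : u.1 ^ 2 ∈ (a * (A * f)) ^ 2 := Ideal.pow_mem_pow hu1 2
        have h2 : (a * (A * f)) ^ 2 = A * (a ^ 2 * (A * f ^ 2)) := by ring
        rw [h2] at h1
        exact Ideal.mul_le_right h1
      · have h1 : b * u.1 * u.2 ∈ f * (a * (A * f)) * a :=
          Ideal.mul_mem_mul (Ideal.mul_mem_mul hFm.mem hu1) hu2
        have h2 : f * (a * (A * f)) * a = a ^ 2 * (A * f ^ 2) := by ring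
        rwa [h2] at h1
      · have h1 : c * u.2 ^ 2 ∈ (A * f ^ 2) * a ^ 2 :=
          Ideal.mul_mem_mul hq2 (Ideal.pow_mem_pow hu2 2)
        rwa [mul_comm] at h1
    have hI0 : a ^ 2 * (A * f ^ 2) ≠ ⊥ := by
      simp only [ne_eq, Ideal.mul_eq_bot, not_or]
      exact ⟨pow_ne_zero 2 ha, hFm.ne, pow_ne_zero 2 hf⟩
    have h1 := (hNI _ hI0).2 n hmem hn0
    have h2 : Nr (n : k) = qd (em b) (em D) u := by
      rw [hz6 u, hn1]
      unfold Nr
      refine Finset.prod_congr rfl fun v _ => ?_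
      rw [← hn1]
      exact abs_of_pos (hp v)
    have h3 : nm (a ^ 2 * (A * f ^ 2)) = nm a ^ 2 * nm f ^ 2 * nm A := by
      rw [pow_two, pow_two, nm_mul, nm_mul, nm_mul, nm_mul]
      ring
    have ha1 := (hNI a ha).1
    have hf1 := (hNI f hf).1
    have hA1 := (hNI A hFm.ne).1
    unfold nf
    rw [le_div_iff₀ (by positivity), one_mul, ← h3, ← h2]
    exact h1

end Pool.Agent.H49.NVK
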