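import Pool.Agent.H89.NV.TU2
import Pool.Agent.H61.NVK.TargetsE3
import Pool.Agent.H1.NVE.LIX

/-!
# Growth of the sums over vectors, from the bound of the Epstein zeta functions
-/

set_option autoImplicit false

open MeasureTheory Set Filter NumberField NumberField.InfinitePlace
open Pool.Agent.H65.CM4 Pool.Agent.H61.CM4 Pool.Agent.H61.NVK Pool.Agent.H89.NV
open scoped Real nonZeroDivisors

namespace Pool.Agent.H49.NVK_GRW

variable (k : Type) [Field k] [NumberField k] [IsTotallyReal k]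

theorem pf_GRW (hEBD : T_EBD) (hZFE : T_ZFE) : T_GRW k := by
  classical
  intro f D hf hD
  obtain ⟨C0, j0, hC0, hE⟩ := hEBD k
  set y : Pl k → ℝ := fun v => Real.sqrt (em D v) / 2 with hy
  have hDv : ∀ v, 0 < em D v := hD
  have hyv : ∀ v, 0 < y v := fun v => by
    have := hDv v
    have := Real.sqrt_pos.2 this
    simp only [hy]
    positivity
  set S : ℝ := C0 * (∏ v, (y v + (y v)⁻¹)) ^ j0 with hS
  have hS0 : 0 ≤ S := by
    have : 0 ≤ ∏ v, (y v + (y v)⁻¹) := Finset.prod_nonneg fun v _ => by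
      have := hyv v
      positivity
    positivity
  refine ⟨(∑ a : ClassGroup (𝓞 k), (nm f ^ 2 * nm (ci a) ^ 2 / sD (em D)) ^ 2) * S, 2,
    mul_nonneg (Finset.sum_nonneg fun a _ => sq_nonneg _) hS0, ?_⟩
  intro A b hFm
  let A' : (Ideal (𝓞 k))⁰ := ⟨A, mem_nonZeroDivisors_of_ne_zero hFm.ne⟩
  let f' : (Ideal (𝓞 k))⁰ := ⟨f, mem_nonZeroDivisors_of_ne_zero hf⟩
  obtain ⟨hs, hEb⟩ := hE (fun v => em b v / 2) y hyv
  set q : V2 k → ℝ := fun u => if u ∈ Fo k then
    (qp (fun v => em b v / 2) y u) ^ (-2 : ℝ) else 0 with hq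
  have key : ∀ (a : ClassGroup (𝓞 k)) (u : V2 k), u ∈ Fo k →
      1 / nf (ci a) A f (em b) (em D) u ^ 2 =
        (nm f ^ 2 * nm (ci a) ^ 2 / sD (em D)) ^ 2 * nm A ^ 2 * q u := by
    intro a u hu
    obtain ⟨h1, h2, h3, -⟩ := hZFE k (cr a) A' f' (em b) (em D) hDv
    obtain ⟨h4, h5, h6, -⟩ := Pool.Agent.H1.NVE_LIX.pf_LIX k (cr a) (A' * f')
    have h7 : ((A' * f' : (Ideal (𝓞 k))⁰) : Ideal (𝓞 k)) = A * f := rfl
    rw [h7] at h4 h5
    have h8 : nm (A * f) = nm A * nm f := by
      unfold nm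
      rw [map_mul]
      push_cast
      rfl
    have hu0 : u ≠ 0 := hu.1
    have h9 := h2 u
    have h10 := h3 u hu0
    have h11 : (ix (Lb (cr a : Ideal (𝓞 k)) (A * f)) : ℝ) ≠ 0 := by exact_mod_cast h5
    have hAf : (A' : Ideal (𝓞 k)) = A := rfl
    have hff : (f' : Ideal (𝓞 k)) = f := rfl
    rw [hAf, hff] at h9 h10
    have e : ci a = (cr a : Ideal (𝓞 k)) := rfl
    rw [e]
    have hqu : q u = (qp (fun v => em b v / 2) y u) ^ (-2 : ℝ) := if_pos hu
    have hnf : (0 : ℝ) < nm f := by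
      have h12 : nm f ≠ 0 := by
        unfold nm
        exact_mod_cast (Ideal.absNorm_eq_zero_iff.not.2 hf)
      exact lt_of_le_of_ne (Nat.cast_nonneg _) h12.symm
    have hqp : qp (fun v => em b v / 2) y u =
        nf (cr a : Ideal (𝓞 k)) A f (em b) (em D) u * nm f / sD (em D) *
          ix (Lb (cr a : Ideal (𝓞 k)) (A * f)) := by
      rw [h9]
      field_simp
      rfl
    have hqp0 : 0 < qp (fun v => em b v / 2) y u := by
      rw [hqp]
      have h13 : (0 : ℝ) < ix (Lb (cr a : Ideal (𝓞 k)) (A * f)) :=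
        lt_of_le_of_ne (Nat.cast_nonneg _) h11.symm
      positivity
    rw [hqu, Real.rpow_neg hqp0.le]
    have h14 : (qp (fun v => em b v / 2) y u) ^ (2 : ℝ) =
        (qp (fun v => em b v / 2) y u) ^ 2 := by
      rw [← Real.rpow_natCast]
      norm_num
    have hnA : (0 : ℝ) < nm A := by
      have h12 : nm A ≠ 0 := by
        unfold nm
        exact_mod_cast (Ideal.absNorm_eq_zero_iff.not.2 hFm.ne)
      exact lt_of_le_of_ne (Nat.cast_nonneg _) h12.symm
    have hna : (0 : ℝ) < nm (cr a : Ideal (𝓞 k)) := by linarith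
    rw [h14, hqp, h4, h8]
    have h15 := h10.ne'
    have h16 := h1.ne'
    field_simp
  have hsum : ∀ a : ClassGroup (𝓞 k), (∑' u : V2 k, if u ∈ Lb (ci a) (A * f) ∧ u ∈ Fo k then
      1 / nf (ci a) A f (em b) (em D) u ^ 2 else 0) ≤
      (nm f ^ 2 * nm (ci a) ^ 2 / sD (em D)) ^ 2 * nm A ^ 2 * S := by
    intro a
    set c : ℝ := (nm f ^ 2 * nm (ci a) ^ 2 / sD (em D)) ^ 2 * nm A ^ 2 with hc
    have hc0 : 0 ≤ c := by positivity
    have hq0 : ∀ u, 0 ≤ q u := by
      intro u
      simp only [hq]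
      split_ifs with hu
      · refine Real.rpow_nonneg ?_ _
        unfold qp
        refine Finset.prod_nonneg fun v _ => ?_
        have := (hyv v).le
        unfold qr
        positivity
      · exact le_rfl
    have h1 : ∀ u : V2 k, (if u ∈ Lb (ci a) (A * f) ∧ u ∈ Fo k then
        1 / nf (ci a) A f (em b) (em D) u ^ 2 else 0) ≤ c * q u := by
      intro u
      split_ifs with hu
      · exact (key a u hu.2).le
      · exact mul_nonneg hc0 (hq0 u)
    have h2 : ∀ u : V2 k, 0 ≤ (if u ∈ Lb (ci a) (A * f) ∧ u ∈ Fo k then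
        1 / nf (ci a) A f (em b) (em D) u ^ 2 else 0) := by
      intro u
      split_ifs with hu
      · positivity
      · exact le_rfl
    have h3 : Summable (fun u : V2 k => c * q u) := hs.mul_left c
    have h4 := (Summable.of_nonneg_of_le h2 h1 h3).tsum_le_tsum h1 h3
    refine h4.trans ?_
    rw [tsum_mul_left]
    exact mul_le_mul_of_nonneg_left hEb hc0
  refine ⟨fun a => ?_, ?_⟩
  · have h1 : Summable (fun u : {u : V2 k // u ∈ Lb (ci a) (A * f) ∧ u ∈ Fo k} =>
        (nm f ^ 2 * nm (ci a) ^ 2 / sD (em D)) ^ 2 * nm A ^ 2 * q u) :=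
      (hs.mul_left _).comp_injective Subtype.val_injective
    refine h1.congr fun u => ?_
    exact (key a u u.2.2).symm
  · unfold Vs
    refine (Finset.sum_le_sum fun a _ => hsum a).trans (le_of_eq ?_)
    rw [Finset.sum_mul, Finset.sum_mul]
    refine Finset.sum_congr rfl fun a _ => ?_
    ring

end Pool.Agent.H49.NVK_GRW
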