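import Pool.Agent.H91.NV.LTargets

/-!
# The weights at the small primes are products of local weights
-/

set_option autoImplicit false

open MeasureTheory Set Filter NumberField NumberField.InfinitePlace
open Pool.Agent.H65.CM4 Pool.Agent.H61.NVK Pool.Agent.H89.NV Pool.Agent.H91.NV
open scoped Real

namespace Pool.Agent.H49.NVK_WLP

section

variable {k : Type} [Field k] [NumberField k]

/-- the local weights depend only on the numbers of roots and on the condition at the prime -/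
theorem wl_congr {f e A : Ideal (𝓞 k)} {P : PrI k} {b c b' c' : 𝓞 k}
    (h1 : Dis (P.1 * f) (4 * c - b ^ 2) ↔ Dis (P.1 * f) (4 * c' - b' ^ 2))
    (h2 : nr f P.1 ⊤ b c = nr f P.1 ⊤ b' c') (h3 : nr f P.1 A b c = nr f P.1 A b' c')
    (h4 : nr f (P.1 ^ 2) A b c = nr f (P.1 ^ 2) A b' c')
    (h5 : P.1 ∣ A → nr f P.1 (dvi A P.1) b c = nr f P.1 (dvi A P.1) b' c') (t : ℕ) :
    wl f P t e A b c = wl f P t e A b' c' ∧ wf f P t b c = wf f P t b' c' := by
  have h6 : chi f P b c = chi f P b' c' := by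
    unfold chi
    rw [h2]
  have h7 : N1 f P.1 e A b c = N1 f P.1 e A b' c' := by
    unfold N1
    rw [h3]
  have h8 : N2 f P.1 e A b c = N2 f P.1 e A b' c' := by
    unfold N2
    rw [h3, h4]
    by_cases hA : P.1 ∣ A
    · rw [h5 hA]
    · have e1 : ¬ (P.1 ∣ A ∧ P.1 ∣ e) := fun h => hA h.1
      rw [if_neg e1, if_neg e1]
  unfold wl wf
  rw [h6, h7, h8]
  by_cases hD : Dis (P.1 * f) (4 * c - b ^ 2)
  · rw [if_neg (not_not.2 hD), if_neg (not_not.2 (h1.1 hD)), if_neg (not_not.2 hD),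
      if_neg (not_not.2 (h1.1 hD))]
    exact ⟨rfl, rfl⟩
  · have hD' : ¬ Dis (P.1 * f) (4 * c' - b' ^ 2) := fun h => hD (h1.2 h)
    rw [if_pos hD, if_pos hD', if_pos hD, if_pos hD']
    exact ⟨rfl, rfl⟩

theorem dis_self {f : Ideal (𝓞 k)} {b c : 𝓞 k} (hb : b ∈ f) (hc : c ∈ f ^ 2) :
    Dis f (4 * c - b ^ 2) := by
  refine ⟨b, hb, ?_⟩
  have h1 : b ^ 2 + (4 * c - b ^ 2) = ((4 : ℕ) : 𝓞 k) * c := by
    push_cast
    ring
  rw [h1]
  unfold ni
  exact Ideal.mul_mem_mul (Ideal.mem_span_singleton_self _) hc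

end

variable (k : Type) [Field k] [NumberField k] [IsTotallyReal k]

open Classical in
theorem pf_WLP (hNRI : T_NRI k) (hGOD : T_GOD k) (hIDL : T_IDL k) : T_WLP k := by
  intro f e A hf hA
  obtain ⟨-, hdvi, -⟩ := hIDL
  refine ⟨?_, ?_⟩
  · intro P t
    have hP : P.1 ≠ ⊥ := P.2.2
    have hP2 : P.1 ^ 2 ≠ ⊥ := pow_ne_zero 2 hP
    have l1 : P.1 ^ 2 * f ≤ P.1 * f := Ideal.mul_mono_left (by
      rw [pow_two]
      exact Ideal.mul_le_right)
    have l2 : P.1 ^ 2 * f ≤ f := Ideal.mul_le_right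
    have l3 : P.1 ^ 2 * (A * f ^ 2) ≤ P.1 ^ 2 * f ^ 2 := Ideal.mul_mono_right Ideal.mul_le_right
    have l4 : A * f ^ 2 ≤ f ^ 2 := Ideal.mul_le_right
    have l5 : P.1 ^ 2 * (A * f ^ 2) ≤ P.1 * (A * f ^ 2) := Ideal.mul_mono_left (by
      rw [pow_two]
      exact Ideal.mul_le_right)
    have l6 : P.1 ^ 2 * (A * f ^ 2) ≤ P.1 * (⊤ * f ^ 2) := by
      rw [Ideal.top_mul]
      exact l5.trans (Ideal.mul_mono_right l4)
    have l7 : P.1 ∣ A → P.1 ^ 2 * (A * f ^ 2) ≤ P.1 * (dvi A P.1 * f ^ 2) := by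
      intro h
      rw [← mul_assoc P.1 (dvi A P.1), (hdvi A P.1 hA h).1]
      exact Ideal.mul_le_right
    -- the two periodicities
    have kb : ∀ b ∈ f, ∀ c ∈ A * f ^ 2, ∀ x ∈ P.1 ^ 2 * f,
        wl f P t e A (b + x) c = wl f P t e A b c ∧ wf f P t (b + x) c = wf f P t b c := by
      intro b hb c hc x hx
      refine wl_congr ?_ ?_ ?_ ?_ ?_ t
      · rw [(hGOD f P (b + x) c hf (f.add_mem hb (l2 hx)) (l4 hc)).2,
          (hGOD f P b c hf hb (l4 hc)).2]
        refine exists_congr fun s => and_congr_right fun hs => ?_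
        have h1 : b + x + 2 * s ∈ P.1 * f ↔ b + 2 * s ∈ P.1 * f := by
          have h2 : b + x + 2 * s = b + 2 * s + x := by ring
          rw [h2]
          exact (P.1 * f).add_mem_iff_left (l1 hx)
        have h3 : s ^ 2 + (b + x) * s + c ∈ P.1 ^ 2 * f ^ 2 ↔
            s ^ 2 + b * s + c ∈ P.1 ^ 2 * f ^ 2 := by
          have h2 : s ^ 2 + (b + x) * s + c = s ^ 2 + b * s + c + x * s := by ring
          rw [h2]
          refine (P.1 ^ 2 * f ^ 2).add_mem_iff_left ?_
          have h4 : x * s ∈ P.1 ^ 2 * f * f := Ideal.mul_mem_mul hx hs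
          rwa [mul_assoc, ← pow_two f] at h4
        rw [h1, h3]
      · exact (hNRI f P.1 ⊤ b c hf hP).2.2.2.1 x (l1 hx)
      · exact (hNRI f P.1 A b c hf hP).2.2.2.1 x (l1 hx)
      · exact (hNRI f (P.1 ^ 2) A b c hf hP2).2.2.2.1 x hx
      · exact fun _ => (hNRI f P.1 (dvi A P.1) b c hf hP).2.2.2.1 x (l1 hx)
    have kc : ∀ b ∈ f, ∀ c ∈ A * f ^ 2, ∀ x ∈ P.1 ^ 2 * (A * f ^ 2),
        wl f P t e A b (c + x) = wl f P t e A b c ∧ wf f P t b (c + x) = wf f P t b c := by
      intro b hb c hc x hx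
      refine wl_congr ?_ ?_ ?_ ?_ ?_ t
      · have hcx : c + x ∈ A * f ^ 2 := (A * f ^ 2).add_mem hc (Ideal.mul_le_right hx)
        rw [(hGOD f P b (c + x) hf hb (l4 hcx)).2, (hGOD f P b c hf hb (l4 hc)).2]
        refine exists_congr fun s => and_congr_right fun hs => and_congr_right fun _ => ?_
        have h2 : s ^ 2 + b * s + (c + x) = s ^ 2 + b * s + c + x := by ring
        rw [h2]
        exact (P.1 ^ 2 * f ^ 2).add_mem_iff_left (l3 hx)
      · exact (hNRI f P.1 ⊤ b c hf hP).2.2.2.2 x (l6 hx)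
      · exact (hNRI f P.1 A b c hf hP).2.2.2.2 x (l5 hx)
      · exact (hNRI f (P.1 ^ 2) A b c hf hP2).2.2.2.2 x hx
      · exact fun h => (hNRI f P.1 (dvi A P.1) b c hf hP).2.2.2.2 x (l7 h hx)
    exact ⟨⟨fun b hb c hc x hx => (kb b hb c hc x hx).1,
      fun b hb c hc x hx => (kc b hb c hc x hx).1⟩,
      ⟨fun b hb c hc x hx => (kb b hb c hc x hx).2,
      fun b hb c hc x hx => (kc b hb c hc x hx).2⟩⟩
  · intro R n₁ n₂ b c h1 h2 hb hc
    have hc2 : c ∈ f ^ 2 := Ideal.mul_le_right hc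
    have hD := dis_self hb hc2
    unfold wN wF
    by_cases hg : ∀ P ∈ R, ¬ Dis (P.1 * f) (4 * c - b ^ 2)
    · have hgood : good f R (4 * c - b ^ 2) := ⟨hD, hg⟩
      rw [if_pos hgood, if_pos hgood]
      refine ⟨?_, ?_⟩
      · have hN : (Nw f n₁ n₂ e A b c : ℝ) = ∏ P ∈ R, if P ∈ n₁ ∪ n₂ then
            (if P ∈ n₁ ∧ P ∈ n₂ then (N2 f P.1 e A b c : ℝ) else (N1 f P.1 e A b c : ℝ)) else 1 := by
          unfold Nw
          rw [← Finset.prod_filter, Nat.cast_prod]
          refine Finset.prod_congr ?_ fun P _ => ?_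
          · ext P
            rw [Finset.mem_filter]
            constructor
            · intro h
              refine ⟨?_, h⟩
              rcases Finset.mem_union.1 h with h3 | h3
              · exact h1 h3
              · exact h2 h3
            · exact fun h => h.2
          · split_ifs <;> rfl
        rw [hN]
        unfold an
        rw [← Finset.prod_mul_distrib, ← Finset.prod_mul_distrib]
        refine Finset.prod_congr rfl fun P hP => ?_
        unfold wl tt
        rw [if_pos (hg P hP)]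
        by_cases hP1 : P ∈ n₁
        · by_cases hP2 : P ∈ n₂
          · simp [hP1, hP2]
          · simp [hP1, hP2]
        · by_cases hP2 : P ∈ n₂
          · simp [hP1, hP2]
          · simp [hP1, hP2]
            ring
      · unfold an
        refine Finset.prod_congr rfl fun P hP => ?_
        unfold wf
        rw [if_pos (hg P hP)]
        by_cases hP1 : P ∈ n₁
        · simp [hP1]
        · simp [hP1]
    · have hgood : ¬ good f R (4 * c - b ^ 2) := fun h => hg h.2
      rw [if_neg hgood, if_neg hgood]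
      push Not at hg
      obtain ⟨P, hP, hPD⟩ := hg
      refine ⟨(Finset.prod_eq_zero hP ?_).symm, (Finset.prod_eq_zero hP ?_).symm⟩
      · unfold wl
        rw [if_neg (not_not.2 hPD)]
      · unfold wf
        rw [if_neg (not_not.2 hPD)]

end Pool.Agent.H49.NVK_WLP
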